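import Pool.Agent.Helper51.AT.Perm

set_option autoImplicit false

open Finset

namespace Pool.Agent.Helper51.AT

variable {p : ℕ} [hp : Fact p.Prime]

/-- the rows: `p - 1` copies of each of the two rows -/
abbrev K (p : ℕ) := Fin (p - 1) × Fin 2

theorem card_K : Fintype.card (K p) = 2 * (p - 1) := by
  simp [K, mul_comm]

/-- the columns sent to copies of the first row -/
def top (σ : Equiv.Perm (K p)) : Finset (K p) := univ.filter (fun c => (σ c).2 = 0)

theorem mem_top (σ : Equiv.Perm (K p)) (c : K p) : c ∈ top σ ↔ (σ c).2 = 0 := by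
  unfold top
  rw [mem_filter]
  exact ⟨fun h => h.2, fun h => ⟨mem_univ _, h⟩⟩

theorem card_T0 : (univ.filter (fun c : K p => c.2 = 0)).card = p - 1 := by
  have : (univ.filter (fun c : K p => c.2 = 0)) = (univ : Finset (Fin (p - 1))) ×ˢ ({0} : Finset (Fin 2)) := by
    ext ⟨x, y⟩; simp [eq_comm]
  rw [this, Finset.card_product]; simp

theorem card_top (σ : Equiv.Perm (K p)) : (top σ).card = p - 1 := by
  rw [← card_T0 (p := p)]
  refine Finset.card_bij (fun c _ => σ c) ?_ ?_ ?_
  · intro c hc; simpa [top] using hc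
  · intro c _ d _ h; exact σ.injective h
  · intro c hc
    refine ⟨σ.symm c, ?_, by simp⟩
    simpa [top] using hc

theorem exists_top (S : Finset (K p)) (hS : S.card = p - 1) : ∃ π : Equiv.Perm (K p), top π = S := by
  have h1 : Fintype.card {c // c ∈ S} = Fintype.card {c : K p // c.2 = 0} := by
    rw [Fintype.card_coe, hS, Fintype.card_subtype, card_T0]
  have e := Fintype.equivOfCardEq h1
  refine ⟨e.extendSubtype, ?_⟩
  ext c
  simp only [top, mem_filter, mem_univ, true_and]
  by_cases hc : c ∈ S
  · simp only [hc, iff_true]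
    exact e.extendSubtype_mem c hc
  · simp only [hc, iff_false]
    exact e.extendSubtype_not_mem c hc

/-- the fibers of `top` have the same size -/
theorem card_fiber (S : Finset (K p)) (hS : S.card = p - 1) :
    (univ.filter (fun σ : Equiv.Perm (K p) => top σ = S)).card =
      (univ.filter (fun σ : Equiv.Perm (K p) => top σ = univ.filter (fun c : K p => c.2 = 0))).card := by
  obtain ⟨π, hπ⟩ := exists_top S hS
  refine Finset.card_bij (fun σ _ => σ * π⁻¹) ?_ ?_ ?_
  · intro σ hσ
    simp only [mem_filter, mem_univ, true_and] at hσ ⊢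
    ext c
    have h1 : (c ∈ top (σ * π⁻¹)) ↔ (π⁻¹ c ∈ top σ) := by rw [mem_top, mem_top, Equiv.Perm.mul_apply]
    rw [h1, hσ, ← hπ, mem_top]
    simp
  · intro σ _ τ _ h; exact mul_right_cancel h
  · intro σ hσ
    simp only [mem_filter, mem_univ, true_and] at hσ
    refine ⟨σ * π, ?_, by simp⟩
    simp only [mem_filter, mem_univ, true_and]
    ext c
    have h1 : (c ∈ top (σ * π)) ↔ (π c ∈ top σ) := by rw [mem_top, mem_top, Equiv.Perm.mul_apply]
    rw [h1, hσ, ← hπ, mem_top]
    simp

theorem fiber_ne_zero :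
    (((univ.filter (fun σ : Equiv.Perm (K p) => top σ = univ.filter (fun c : K p => c.2 = 0))).card : ℕ) : ZMod p) ≠ 0 := by
  have hpp := hp.out.two_le
  set N := (univ.filter (fun σ : Equiv.Perm (K p) => top σ = univ.filter (fun c : K p => c.2 = 0))).card
  have h1 : (2 * (p - 1)).factorial = N * (2 * (p - 1)).choose (p - 1) := by
    have h2 : Fintype.card (Equiv.Perm (K p)) = (2 * (p - 1)).factorial := by
      rw [Fintype.card_perm, card_K]
    rw [← h2, ← Finset.card_univ]
    rw [Finset.card_eq_sum_card_fiberwise (f := top) (t := (univ : Finset (K p)).powersetCard (p - 1))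
      (fun σ _ => Finset.mem_coe.mpr
        (Finset.mem_powersetCard.mpr ⟨Finset.subset_univ _, card_top σ⟩))]
    rw [Finset.sum_congr rfl (fun S hS => card_fiber S (Finset.mem_powersetCard.mp hS).2)]
    rw [Finset.sum_const, Finset.card_powersetCard, Finset.card_univ, card_K, smul_eq_mul, mul_comm]
  have h3 := Nat.choose_mul_factorial_mul_factorial (n := 2 * (p - 1)) (k := p - 1) (by omega)
  have h4 : 2 * (p - 1) - (p - 1) = p - 1 := by omega
  rw [h4] at h3
  have h5 : N = (p - 1).factorial * (p - 1).factorial := by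
    have hc : 0 < (2 * (p - 1)).choose (p - 1) := Nat.choose_pos (by omega)
    apply Nat.eq_of_mul_eq_mul_right hc
    rw [← h1, ← h3]; ring
  intro h0
  rw [ZMod.natCast_eq_zero_iff, h5] at h0
  rcases (Nat.Prime.dvd_mul hp.out).mp h0 with h | h <;>
  · have := (Nat.Prime.dvd_factorial hp.out).mp h
    omega

/-- the permanent of the stacked matrix -/
theorem permanent_eq (a : K p → Fin 2 → ZMod p) :
    Matrix.permanent (Matrix.of (fun (r c : K p) => a c r.2)) =
      (((univ.filter (fun σ : Equiv.Perm (K p) => top σ = univ.filter (fun c : K p => c.2 = 0))).card : ℕ) : ZMod p)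
        * W p a := by
  have h1 : ∀ σ : Equiv.Perm (K p), (∏ c, Matrix.of (fun (r c : K p) => a c r.2) (σ c) c) =
      (∏ c ∈ top σ, a c 0) * ∏ c ∈ univ \ top σ, a c 1 := by
    intro σ
    rw [← Finset.prod_sdiff (Finset.subset_univ (top σ)), mul_comm]
    congr 1
    · refine Finset.prod_congr rfl (fun c hc => ?_)
      have : (σ c).2 = 0 := by simpa [top] using hc
      simp [this]
    · refine Finset.prod_congr rfl (fun c hc => ?_)
      have : (σ c).2 = 1 := by
        have h2 : (σ c).2 ≠ 0 := by simpa [top] using hc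
        omega
      simp [this]
  rw [Matrix.permanent]
  simp_rw [h1]
  rw [← Finset.sum_fiberwise_of_maps_to (s := univ) (t := (univ : Finset (K p)).powersetCard (p - 1))
    (g := top) (fun σ _ => Finset.mem_powersetCard.mpr ⟨Finset.subset_univ _, card_top σ⟩)]
  rw [W, Finset.mul_sum]
  refine Finset.sum_congr rfl (fun S hS => ?_)
  rw [Finset.sum_congr rfl (g := fun _ => (∏ c ∈ S, a c 0) * ∏ c ∈ univ \ S, a c 1)
    (fun σ hσ => by rw [(Finset.mem_filter.mp hσ).2])]
  rw [Finset.sum_const, nsmul_eq_mul]
  rw [card_fiber S (Finset.mem_powersetCard.mp hS).2]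

end Pool.Agent.Helper51.AT
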