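import Pool.Agent.Helper51.AT.Poly
import Pool.Agent.Helper51.AT.Count

set_option autoImplicit false

open Finset Polynomial

namespace Pool.Agent.Helper51.AT

variable {p : ℕ} [hp : Fact p.Prime]

/-- change of coordinates of determinant one -/
theorem W_invariant {κ : Type*} [Fintype κ] [DecidableEq κ] (hκ : Fintype.card κ = 2 * (p - 1))
    (v : κ → Fin 2 → ZMod p) (u0 u1 w0 w1 : ZMod p) (hdet : u0 * w1 - u1 * w0 = 1) :
    W p (fun c => ![v c 0 * u0 + v c 1 * u1, v c 0 * w0 + v c 1 * w1]) = W p v := by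
  rw [← sum_plane hκ, ← sum_plane hκ]
  let e : ZMod p × ZMod p ≃ ZMod p × ZMod p :=
    { toFun := fun z => (z.1 * u0 + z.2 * w0, z.1 * u1 + z.2 * w1)
      invFun := fun z => (z.1 * w1 - z.2 * w0, z.2 * u0 - z.1 * u1)
      left_inv := by
        rintro ⟨x, y⟩
        ext
        · show (x * u0 + y * w0) * w1 - (x * u1 + y * w1) * w0 = x
          linear_combination x * hdet
        · show (x * u1 + y * w1) * u0 - (x * u0 + y * w0) * u1 = y
          linear_combination y * hdet
      right_inv := by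
        rintro ⟨x, y⟩
        ext
        · show (x * w1 - y * w0) * u0 + (y * u0 - x * u1) * w0 = x
          linear_combination x * hdet
        · show (x * w1 - y * w0) * u1 + (y * u0 - x * u1) * w1 = y
          linear_combination y * hdet }
  rw [← Equiv.sum_comp e (fun z : ZMod p × ZMod p => ∏ c, (v c 0 * z.1 + v c 1 * z.2))]
  refine Finset.sum_congr rfl (fun z _ => Finset.prod_congr rfl (fun c _ => ?_))
  simp only [Matrix.cons_val_zero, Matrix.cons_val_one, e, Equiv.coe_fn_mk]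
  ring

theorem main (v : Fin p × Fin 2 → Fin 2 → ZMod p) (hv0 : ∀ c, v c ≠ 0)
    (hv : ∀ z : Fin 2 → ZMod p, z ≠ 0 →
      (univ.filter (fun c => v c 0 * z 0 + v c 1 * z 1 = 0)).card ≤ p)
    (c0 : Fin p × Fin 2) :
    ∃ c1 : Fin p × Fin 2, c1 ≠ c0 ∧ ∃ f : Fin (p - 1) × Fin 2 → Fin p × Fin 2,
      Function.Injective f ∧ (∀ k, f k ≠ c0 ∧ f k ≠ c1) ∧
      Matrix.permanent (Matrix.of (fun (r c : Fin (p - 1) × Fin 2) => v (f c) r.2)) ≠ 0 := by
  classical
  have hpp := hp.out.two_le
  -- coordinates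
  obtain ⟨w0, w1, hw⟩ : ∃ w0 w1 : ZMod p, v c0 0 * w0 + v c0 1 * w1 = 1 := by
    by_cases h0 : v c0 0 = 0
    · have h1 : v c0 1 ≠ 0 := by
        intro h1
        apply hv0 c0
        ext i
        fin_cases i
        · exact h0
        · exact h1
      exact ⟨0, (v c0 1)⁻¹, by rw [mul_zero, zero_add, mul_inv_cancel₀ h1]⟩
    · exact ⟨(v c0 0)⁻¹, 0, by rw [mul_zero, add_zero, mul_inv_cancel₀ h0]⟩
  set u0 : ZMod p := v c0 1 with hu0
  set u1 : ZMod p := -v c0 0 with hu1
  have hdet : u0 * w1 - u1 * w0 = 1 := by rw [hu0, hu1]; linear_combination hw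
  set a : Fin p × Fin 2 → Fin 2 → ZMod p :=
    fun c => ![v c 0 * u0 + v c 1 * u1, v c 0 * w0 + v c 1 * w1] with ha
  have ha0 : ∀ c, a c 0 = v c 0 * u0 + v c 1 * u1 := fun c => rfl
  have ha1 : ∀ c, a c 1 = v c 0 * w0 + v c 1 * w1 := fun c => rfl
  have hac0 : a c0 0 = 0 := by rw [ha0, hu0, hu1]; ring
  have hane : ∀ c, a c 0 = 0 → a c 1 ≠ 0 := by
    intro c h0 h1
    rw [ha0] at h0
    rw [ha1] at h1
    apply hv0 c
    ext i
    fin_cases i
    · show v c 0 = 0
      linear_combination (-v c 0) * hdet + w1 * h0 - u1 * h1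
    · show v c 1 = 0
      linear_combination (-v c 1) * hdet + u0 * h1 - w0 * h0
  -- the number of columns on the line of `c0`
  set I0 : Finset (Fin p × Fin 2) := univ.filter (fun c => a c 0 = 0) with hI0
  have hI0le : I0.card ≤ p := by
    have hz : (![u0, u1] : Fin 2 → ZMod p) ≠ 0 := by
      intro h
      have e0 : u0 = 0 := congrFun h 0
      have e1 : u1 = 0 := congrFun h 1
      rw [e0, e1] at hdet
      simp at hdet
    have := hv ![u0, u1] hz
    simpa [hI0, ha0] using this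
  have hc0I : c0 ∈ I0 := by rw [hI0, mem_filter]; exact ⟨mem_univ _, hac0⟩
  have hI0pos : 0 < I0.card := Finset.card_pos.mpr ⟨c0, hc0I⟩
  have hall : Fintype.card (Fin p × Fin 2) = 2 * p := by simp [mul_comm]
  have hcK : Fintype.card {c : Fin p × Fin 2 // a c 0 ≠ 0} = p + (p - I0.card) := by
    have h1 : Fintype.card {c : Fin p × Fin 2 // a c 0 ≠ 0} =
        (univ.filter (fun c : Fin p × Fin 2 => a c 0 ≠ 0)).card := Fintype.card_subtype _
    have h2 := Finset.card_filter_add_card_filter_not (s := (univ : Finset (Fin p × Fin 2)))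
      (fun c => a c 0 = 0)
    rw [Finset.card_univ, hall] at h2
    rw [h1]
    have h3 : I0.card + (univ.filter (fun c : Fin p × Fin 2 => a c 0 ≠ 0)).card = 2 * p := h2
    omega
  obtain ⟨c1, hc1⟩ := exists_coeff_ne_zero (κ := {c : Fin p × Fin 2 // a c 0 ≠ 0})
    (fun c => -(a c.1 1) / a c.1 0) (p - I0.card) (by omega) hcK (by
      intro x
      have hz : (![x * u0 + w0, x * u1 + w1] : Fin 2 → ZMod p) ≠ 0 := by
        intro h
        have e0 : x * u0 + w0 = 0 := congrFun h 0
        have e1 : x * u1 + w1 = 0 := congrFun h 1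
        have : (1 : ZMod p) = 0 := by linear_combination (-1 : ZMod p) * hdet + u0 * e1 - u1 * e0
        exact one_ne_zero this
      refine le_trans ?_ (hv _ hz)
      refine Finset.card_le_card_of_injOn (fun c => c.1) ?_ (fun c _ d _ h => Subtype.ext h)
      intro c hc
      have hc' : -(a c.1 1) / a c.1 0 = x := by simpa using hc
      rw [div_eq_iff c.2, ha0, ha1] at hc'
      refine Finset.mem_coe.mpr (Finset.mem_filter.mpr ⟨mem_univ _, ?_⟩)
      show v c.1 0 * (x * u0 + w0) + v c.1 1 * (x * u1 + w1) = 0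
      linear_combination (-1 : ZMod p) * hc')
  have hne : c1.1 ≠ c0 := by
    intro h
    apply c1.2
    rw [h]; exact hac0
  refine ⟨c1.1, hne, ?_⟩
  -- the enumeration of the remaining columns
  have hcardJ : Fintype.card (K p) = Fintype.card {c : Fin p × Fin 2 // c ≠ c0 ∧ c ≠ c1.1} := by
    rw [card_K, Fintype.card_subtype]
    have : (univ.filter (fun c : Fin p × Fin 2 => c ≠ c0 ∧ c ≠ c1.1)) = (univ.erase c0).erase c1.1 := by
      ext c
      simp [and_comm]
    rw [this, Finset.card_erase_of_mem (by simp [hne]), Finset.card_erase_of_mem (mem_univ _),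
      Finset.card_univ, hall]
    omega
  let e := Fintype.equivOfCardEq hcardJ
  refine ⟨fun k => (e k).1, fun k l h => e.injective (Subtype.ext h), fun k => (e k).2, ?_⟩
  have hperm := permanent_eq (fun k : K p => v (e k).1)
  rw [hperm]
  refine mul_ne_zero fiber_ne_zero ?_
  rw [← W_invariant card_K (fun k : K p => v (e k).1) u0 u1 w0 w1 hdet]
  have hW : W p (fun k : K p => ![v (e k).1 0 * u0 + v (e k).1 1 * u1,
      v (e k).1 0 * w0 + v (e k).1 1 * w1]) = W p (fun k : K p => a (e k).1) := rfl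
  rw [hW, ← coeff_eq]
  -- the product
  set g : Fin p × Fin 2 → (ZMod p)[X] := fun c => C (a c 0) * X + C (a c 1) with hg
  have h1 : ∏ k : K p, (C (a (e k).1 0) * X + C (a (e k).1 1)) =
      ∏ c ∈ univ.filter (fun c : Fin p × Fin 2 => c ≠ c0 ∧ c ≠ c1.1), g c := by
    rw [show (∏ k : K p, (C (a (e k).1 0) * X + C (a (e k).1 1))) =
      ∏ k : K p, (fun j : {c : Fin p × Fin 2 // c ≠ c0 ∧ c ≠ c1.1} => g j.1) (e k) from rfl]
    rw [Equiv.prod_comp e (fun j : {c : Fin p × Fin 2 // c ≠ c0 ∧ c ≠ c1.1} => g j.1)]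
    exact (Finset.prod_subtype _ (fun c => by simp) g).symm
  rw [h1, ← Finset.prod_filter_mul_prod_filter_not _ (fun c => a c 0 = 0)]
  set U := univ.filter (fun c : Fin p × Fin 2 => c ≠ c0 ∧ c ≠ c1.1) with hU
  have h2 : ∏ c ∈ U.filter (fun c => a c 0 = 0), g c = C (∏ c ∈ U.filter (fun c => a c 0 = 0), a c 1) := by
    rw [map_prod]
    refine Finset.prod_congr rfl (fun c hc => ?_)
    rw [hg]
    simp only
    rw [(Finset.mem_filter.mp hc).2]
    simp
  have h3 : ∏ c ∈ U.filter (fun c => ¬ a c 0 = 0), g c =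
      C (∏ c ∈ U.filter (fun c => ¬ a c 0 = 0), a c 0) *
        ∏ c ∈ U.filter (fun c => ¬ a c 0 = 0), (X - C (-(a c 1) / a c 0)) := by
    rw [map_prod, ← Finset.prod_mul_distrib]
    refine Finset.prod_congr rfl (fun c hc => ?_)
    have hne0 := (Finset.mem_filter.mp hc).2
    rw [hg]
    simp only
    rw [mul_sub, ← C_mul, mul_div_cancel₀ _ hne0, C_neg, sub_neg_eq_add]
  have h4 : ∏ c ∈ U.filter (fun c => ¬ a c 0 = 0), (X - C (-(a c 1) / a c 0)) =
      ∏ i ∈ (univ : Finset {c : Fin p × Fin 2 // a c 0 ≠ 0}).erase c1, (X - C (-(a i.1 1) / a i.1 0)) := by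
    symm
    refine Finset.prod_bij (fun i _ => i.1) ?_ ?_ ?_ ?_
    · intro i hi
      rw [Finset.mem_filter, hU, Finset.mem_filter]
      refine ⟨⟨mem_univ _, ?_, ?_⟩, i.2⟩
      · intro h
        apply i.2
        rw [h]; exact hac0
      · intro h
        exact (Finset.mem_erase.mp hi).1 (Subtype.ext h)
    · intro i _ j _ h; exact Subtype.ext h
    · intro c hc
      rw [Finset.mem_filter, hU, Finset.mem_filter] at hc
      refine ⟨⟨c, hc.2⟩, ?_, rfl⟩
      rw [Finset.mem_erase]
      exact ⟨fun h => hc.1.2.2 (congrArg Subtype.val h), mem_univ _⟩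
    · intro i _; rfl
  rw [h2, h3, h4, ← mul_assoc, ← C_mul, coeff_C_mul]
  refine mul_ne_zero (mul_ne_zero ?_ ?_) hc1
  · rw [Finset.prod_ne_zero_iff]
    intro c hc
    exact hane c (Finset.mem_filter.mp hc).2
  · rw [Finset.prod_ne_zero_iff]
    intro c hc
    exact (Finset.mem_filter.mp hc).2

end Pool.Agent.Helper51.AT
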