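import Mathlib

set_option autoImplicit false

open Finset

namespace Pool.Agent.Helper51.AT

variable {p : ℕ} [hp : Fact p.Prime]

/-- the balanced sum over an index type -/
noncomputable def W {κ : Type*} [Fintype κ] [DecidableEq κ] (p : ℕ) (a : κ → Fin 2 → ZMod p) : ZMod p :=
  ∑ S ∈ (univ : Finset κ).powersetCard (p - 1), (∏ c ∈ S, a c 0) * ∏ c ∈ univ \ S, a c 1

/-- `W` as a sum over the plane -/
theorem sum_plane {κ : Type*} [Fintype κ] [DecidableEq κ] (hκ : Fintype.card κ = 2 * (p - 1))
    (a : κ → Fin 2 → ZMod p) :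
    ∑ z : ZMod p × ZMod p, ∏ c, (a c 0 * z.1 + a c 1 * z.2) = W p a := by
  have hpp := hp.out.two_le
  have h1 : ∀ z : ZMod p × ZMod p, ∏ c, (a c 0 * z.1 + a c 1 * z.2) =
      ∑ S ∈ (univ : Finset κ).powerset, ((∏ c ∈ S, a c 0) * ∏ c ∈ univ \ S, a c 1) *
        (z.1 ^ S.card * z.2 ^ (2 * (p - 1) - S.card)) := by
    intro z
    rw [Finset.prod_add]
    refine Finset.sum_congr rfl (fun S hS => ?_)
    rw [Finset.prod_mul_distrib, Finset.prod_mul_distrib, Finset.prod_const, Finset.prod_const,
      Finset.card_sdiff_of_subset (Finset.subset_univ S), Finset.card_univ, hκ]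
    ring
  simp_rw [h1]
  rw [Finset.sum_comm]
  have h2 : ∀ S : Finset κ, (∑ z : ZMod p × ZMod p, ((∏ c ∈ S, a c 0) * ∏ c ∈ univ \ S, a c 1) *
        (z.1 ^ S.card * z.2 ^ (2 * (p - 1) - S.card))) =
      if S.card = p - 1 then (∏ c ∈ S, a c 0) * ∏ c ∈ univ \ S, a c 1 else 0 := by
    intro S
    rw [← Finset.mul_sum, Fintype.sum_prod_type]
    simp_rw [← Finset.mul_sum]
    rw [← Finset.sum_mul]
    have hcardF : Fintype.card (ZMod p) = p := ZMod.card p
    rcases lt_trichotomy S.card (p - 1) with h | h | h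
    · rw [if_neg h.ne, FiniteField.sum_pow_lt_card_sub_one (ZMod p) S.card (by rw [hcardF]; exact h)]
      simp
    · rw [if_pos h]
      have e1 : 2 * (p - 1) - S.card = p - 1 := by omega
      rw [e1, h]
      have e2 : ∑ x : ZMod p, x ^ (p - 1) = -1 := by
        have := FiniteField.sum_pow_units (K := ZMod p) (p - 1)
        rw [hcardF, if_pos (dvd_refl _)] at this
        have e3 : ∑ x : ZMod p, x ^ (p - 1) = ∑ x : (ZMod p)ˣ, ((x : ZMod p)) ^ (p - 1) := by
          rw [← Finset.sum_filter_add_sum_filter_not univ (fun x : ZMod p => x = 0)]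
          rw [Finset.filter_eq' univ (0 : ZMod p)]
          simp only [mem_univ, if_true, Finset.sum_singleton]
          rw [zero_pow (by omega), zero_add]
          symm
          refine Finset.sum_bij (fun (u : (ZMod p)ˣ) _ => (u : ZMod p)) ?_ ?_ ?_ ?_
          · intro u _; simp
          · intro u _ v _ h; exact Units.ext h
          · intro x hx
            exact ⟨Units.mk0 x (by simpa using hx), mem_univ _, rfl⟩
          · intro u _; rfl
        rw [e3, this]
      rw [e2]; ring
    · rw [if_neg h.ne']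
      have h3 : S.card ≤ 2 * (p - 1) := by rw [← hκ]; exact Finset.card_le_univ S
      rw [FiniteField.sum_pow_lt_card_sub_one (ZMod p) (2 * (p - 1) - S.card) (by rw [hcardF]; omega)]
      simp
  simp_rw [h2]
  rw [W, ← Finset.sum_filter]
  refine Finset.sum_congr ?_ (fun _ _ => rfl)
  ext S
  simp [Finset.mem_powersetCard]

/-- `W` as a coefficient -/
theorem coeff_eq {κ : Type*} [Fintype κ] [DecidableEq κ] (a : κ → Fin 2 → ZMod p) :
    (∏ c, (Polynomial.C (a c 0) * Polynomial.X + Polynomial.C (a c 1))).coeff (p - 1) = W p a := by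
  rw [Finset.prod_add, Polynomial.finsetSum_coeff, W]
  rw [← Finset.sum_subset (s₁ := (univ : Finset κ).powersetCard (p - 1))]
  · refine Finset.sum_congr rfl (fun S hS => ?_)
    rw [Finset.mem_powersetCard] at hS
    rw [Finset.prod_mul_distrib, Finset.prod_const, hS.2]
    rw [← map_prod, ← map_prod, mul_assoc, mul_comm (Polynomial.X ^ (p - 1)), ← mul_assoc,
      ← map_mul, Polynomial.coeff_C_mul, Polynomial.coeff_X_pow, if_pos rfl, mul_one]
  · intro S hS
    rw [Finset.mem_powersetCard] at hS
    exact Finset.mem_powerset.mpr hS.1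
  · intro S _ hS
    rw [Finset.mem_powersetCard] at hS
    have h1 : S.card ≠ p - 1 := fun h => hS ⟨Finset.subset_univ S, h⟩
    rw [Finset.prod_mul_distrib, Finset.prod_const]
    rw [← map_prod, ← map_prod, mul_assoc, mul_comm (Polynomial.X ^ (S.card)), ← mul_assoc,
      ← map_mul, Polynomial.coeff_C_mul, Polynomial.coeff_X_pow, if_neg (Ne.symm h1), mul_zero]

end Pool.Agent.Helper51.AT
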