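import Mathlib

set_option autoImplicit false

open Polynomial Finset

namespace Pool.Agent.Helper51.AT

variable {p : ℕ} [hp : Fact p.Prime]

/-- if the coefficient of `X^(p-1)` in `P` vanishes then `X - θ` divides the upper part of `(X - θ) P` -/
theorem dvd_upper (P : (ZMod p)[X]) (θ : ZMod p) (h : P.coeff (p - 1) = 0) :
    (X - C θ) ∣ ((X - C θ) * P) /ₘ (X ^ p : (ZMod p)[X]) := by
  have hpp : 0 < p := hp.out.pos
  have hmon : (X ^ p : (ZMod p)[X]).Monic := monic_X_pow p
  have hdeg : ((X - C θ) * (P %ₘ X ^ p)).degree < (X ^ p : (ZMod p)[X]).degree := by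
    rw [degree_X_pow]
    have h1 : (P %ₘ (X ^ p : (ZMod p)[X])).degree < ((p - 1 : ℕ) : WithBot ℕ) := by
      rw [degree_lt_iff_coeff_zero]
      intro m hm
      rcases Nat.lt_or_ge m p with h2 | h2
      · have h3 : m = p - 1 := by omega
        have h4 : (P %ₘ (X ^ p : (ZMod p)[X])).coeff m = P.coeff m := by
          have h5 := modByMonic_add_div P (X ^ p : (ZMod p)[X])
          have h6 : (X ^ p * (P /ₘ X ^ p) : (ZMod p)[X]).coeff m = 0 := by
            rw [coeff_X_pow_mul']
            simp [Nat.not_le.mpr h2]
          have h7 := congrArg (fun Q => coeff Q m) h5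
          simp only [coeff_add] at h7
          rw [h6, add_zero] at h7
          exact h7
        rw [h4, h3, h]
      · have h5 := degree_modByMonic_lt P hmon
        rw [degree_X_pow] at h5
        exact coeff_eq_zero_of_degree_lt (lt_of_lt_of_le h5 (by exact_mod_cast h2))
    calc ((X - C θ) * (P %ₘ X ^ p)).degree = (X - C θ).degree + (P %ₘ X ^ p).degree := degree_mul
      _ = 1 + (P %ₘ X ^ p).degree := by rw [degree_X_sub_C]
      _ < 1 + ((p - 1 : ℕ) : WithBot ℕ) := by
        rcases eq_or_ne (P %ₘ (X ^ p : (ZMod p)[X])) 0 with h0 | h0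
        · rw [h0, degree_zero]
          simp only [WithBot.add_bot]
          exact bot_lt_iff_ne_bot.mpr (by simp)
        · rw [degree_eq_natDegree h0] at h1 ⊢
          norm_cast at h1 ⊢
          omega
      _ = (p : WithBot ℕ) := by norm_cast; omega
  have h8 := div_modByMonic_unique ((X - C θ) * (P /ₘ X ^ p)) ((X - C θ) * (P %ₘ X ^ p)) hmon
    (f := (X - C θ) * P) ⟨by
      conv_rhs => rw [← modByMonic_add_div P (X ^ p : (ZMod p)[X])]
      ring, hdeg⟩
  rw [h8.1]
  exact dvd_mul_right _ _

/-- comparing multiplicities -/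
theorem mult_eq {F : Type*} [Field F] (q B : F[X]) (hq : q ≠ 0) (hB : B ≠ 0) (θ : F)
    (h : derivative q * B = q * derivative B) :
    ((q.rootMultiplicity θ : ℕ) : F) = ((B.rootMultiplicity θ : ℕ) : F) := by
  obtain ⟨u, hu, hu'⟩ := exists_eq_pow_rootMultiplicity_mul_and_not_dvd q hq θ
  obtain ⟨w, hw, hw'⟩ := exists_eq_pow_rootMultiplicity_mul_and_not_dvd B hB θ
  set m := q.rootMultiplicity θ
  set b := B.rootMultiplicity θ
  have e1 : (X - C θ) * derivative q = (X - C θ) ^ m * (C (m : F) * u + (X - C θ) * derivative u) := by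
    rw [hu, derivative_mul, derivative_X_sub_C_pow]
    rcases Nat.eq_zero_or_pos m with h0 | h0
    · rw [h0]; simp
    · have hk : (X - C θ : F[X]) ^ m = (X - C θ) * (X - C θ) ^ (m - 1) := by
        rw [← pow_succ']; congr 1; omega
      rw [hk]
      ring
  have e2 : (X - C θ) * derivative B = (X - C θ) ^ b * (C (b : F) * w + (X - C θ) * derivative w) := by
    rw [hw, derivative_mul, derivative_X_sub_C_pow]
    rcases Nat.eq_zero_or_pos b with h0 | h0
    · rw [h0]; simp
    · have hk : (X - C θ : F[X]) ^ b = (X - C θ) * (X - C θ) ^ (b - 1) := by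
        rw [← pow_succ']; congr 1; omega
      rw [hk]
      ring
  have e3 : ((X - C θ) * derivative q) * B = q * ((X - C θ) * derivative B) := by
    linear_combination (X - C θ) * h
  rw [e1, e2] at e3
  have e4 : (X - C θ) ^ (m + b) * ((C (m : F) * u + (X - C θ) * derivative u) * w) =
      (X - C θ) ^ (m + b) * (u * (C (b : F) * w + (X - C θ) * derivative w)) := by
    rw [pow_add]
    calc (X - C θ) ^ m * (X - C θ) ^ b * ((C (m : F) * u + (X - C θ) * derivative u) * w)
        = ((X - C θ) ^ m * (C (m : F) * u + (X - C θ) * derivative u)) * ((X - C θ) ^ b * w) := by ring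
      _ = ((X - C θ) ^ m * (C (m : F) * u + (X - C θ) * derivative u)) * B := by rw [← hw]
      _ = q * ((X - C θ) ^ b * (C (b : F) * w + (X - C θ) * derivative w)) := e3
      _ = ((X - C θ) ^ m * u) * ((X - C θ) ^ b * (C (b : F) * w + (X - C θ) * derivative w)) := by
        rw [← hu]
      _ = _ := by ring
  have e5 := mul_left_cancel₀ (pow_ne_zero _ (X_sub_C_ne_zero θ)) e4
  have e6 := congrArg (eval θ) e5
  simp only [eval_mul, eval_add, eval_C, eval_sub, eval_X, sub_self, zero_mul, add_zero] at e6
  have hu0 : eval θ u ≠ 0 := fun h0 => hu' (dvd_iff_isRoot.mpr h0)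
  have hw0 : eval θ w ≠ 0 := fun h0 => hw' (dvd_iff_isRoot.mpr h0)
  have e7 : ((m : F) - (b : F)) * (eval θ u * eval θ w) = 0 := by linear_combination e6
  rcases mul_eq_zero.mp e7 with h9 | h9
  · exact sub_eq_zero.mp h9
  · exact absurd h9 (mul_ne_zero hu0 hw0)

/-- The polynomial statement: of `p + r` linear factors over `ZMod p`, `r < p`, none repeated more than
`p` times, one can be dropped so that the coefficient of `X^(p-1)` of the product is nonzero. -/
theorem exists_coeff_ne_zero {κ : Type*} [Fintype κ] [DecidableEq κ] (θ : κ → ZMod p) (r : ℕ)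
    (hr : r < p) (hcard : Fintype.card κ = p + r)
    (hm : ∀ x : ZMod p, (univ.filter (fun c => θ c = x)).card ≤ p) :
    ∃ c : κ, (∏ i ∈ univ.erase c, (X - C (θ i))).coeff (p - 1) ≠ 0 := by
  by_contra hcon
  push Not at hcon
  have hpp : 0 < p := hp.out.pos
  set q : (ZMod p)[X] := ∏ i, (X - C (θ i)) with hqdef
  have hmon : (X ^ p : (ZMod p)[X]).Monic := monic_X_pow p
  set A : (ZMod p)[X] := q %ₘ X ^ p with hA
  set B : (ZMod p)[X] := q /ₘ X ^ p with hBdef
  have hqAB : q = A + X ^ p * B := (modByMonic_add_div q (X ^ p : (ZMod p)[X])).symm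
  have hqm : q.Monic := monic_prod_of_monic _ _ (fun i _ => monic_X_sub_C _)
  have hqdeg : q.natDegree = p + r := by
    rw [hqdef, natDegree_prod_of_monic _ _ (fun i _ => monic_X_sub_C _)]
    simp [hcard]
  have hBdeg : B.natDegree = r := by
    rw [hBdef, natDegree_divByMonic q hmon, hqdeg, natDegree_X_pow]; omega
  have hB0 : B ≠ 0 := by
    intro h0
    rw [hBdef, divByMonic_eq_zero_iff hmon] at h0
    rw [degree_X_pow, degree_eq_natDegree hqm.ne_zero, hqdeg] at h0
    norm_cast at h0
    omega
  have hfac : ∀ c : κ, q = (X - C (θ c)) * ∏ i ∈ univ.erase c, (X - C (θ i)) := fun c => by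
    rw [hqdef, ← Finset.mul_prod_erase univ (fun i => (X - C (θ i) : (ZMod p)[X])) (mem_univ c)]
  have hdvd : ∀ c : κ, (X - C (θ c)) ∣ B := fun c => by
    have := dvd_upper (∏ i ∈ univ.erase c, (X - C (θ i))) (θ c) (hcon c)
    rw [← hfac c] at this
    exact this
  -- `q ∣ q' B`
  have h1 : q ∣ derivative q * B := by
    have : derivative q = ∑ c, (∏ i ∈ univ.erase c, (X - C (θ i))) := by
      rw [hqdef, derivative_prod_finset]
      apply Finset.sum_congr rfl
      intro c _
      simp
    rw [this, Finset.sum_mul]
    refine Finset.dvd_sum (fun c _ => ?_)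
    rw [hfac c, mul_comm (X - C (θ c))]
    exact mul_dvd_mul_left _ (hdvd c)
  have hder : derivative (X ^ p : (ZMod p)[X]) = 0 := by
    rw [derivative_X_pow]; simp
  have h2 : derivative q * B - q * derivative B = derivative A * B - A * derivative B := by
    have : derivative q = derivative A + X ^ p * derivative B := by
      rw [hqAB, derivative_add, derivative_mul, hder]; ring
    rw [this]
    linear_combination (-derivative B) * hqAB
  have hAdeg : A.natDegree < p := by
    have := natDegree_modByMonic_lt q hmon (by
      intro h0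
      have := congrArg natDegree h0
      rw [natDegree_X_pow, natDegree_one] at this
      omega)
    rwa [natDegree_X_pow] at this
  have h3 : derivative q * B = q * derivative B := by
    have h4 : q ∣ derivative A * B - A * derivative B := by
      rw [← h2]; exact dvd_sub h1 (dvd_mul_right _ _)
    have h5 : (derivative A * B - A * derivative B).natDegree < q.natDegree := by
      rw [hqdeg]
      have a1 : (derivative A * B).natDegree ≤ (p - 1) + r := by
        refine natDegree_mul_le.trans ?_
        have := natDegree_derivative_le A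
        omega
      have a2 : (A * derivative B).natDegree ≤ (p - 1) + r := by
        refine natDegree_mul_le.trans ?_
        have := natDegree_derivative_le B
        omega
      have := natDegree_sub_le_of_le a1 a2
      omega
    have h6 := eq_zero_of_dvd_of_natDegree_lt h4 h5
    rw [h6] at h2
    exact sub_eq_zero.mp h2
  -- multiplicities
  have hroots : q.roots = univ.val.map θ := by
    rw [hqdef]
    have : (∏ i, (X - C (θ i)) : (ZMod p)[X]) = ((univ.val.map θ).map (fun a => X - C a)).prod := by
      rw [Multiset.map_map]; rfl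
    rw [this, roots_multiset_prod_X_sub_C]
  have hle : q.roots ≤ B.roots := by
    rw [Multiset.le_iff_count]
    intro x
    rw [count_roots, count_roots]
    rcases Nat.eq_zero_or_pos (q.rootMultiplicity x) with h0 | h0
    · rw [h0]; exact Nat.zero_le _
    have hx : x ∈ q.roots := by
      rw [← Multiset.count_pos, count_roots]; exact h0
    rw [hroots, Multiset.mem_map] at hx
    obtain ⟨c, _, hc⟩ := hx
    have hb : 0 < B.rootMultiplicity x := by
      rw [rootMultiplicity_pos hB0, ← hc, ← dvd_iff_isRoot]
      exact hdvd c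
    have hb2 : B.rootMultiplicity x ≤ r := by
      rw [← hBdeg]
      calc B.rootMultiplicity x = B.roots.count x := (count_roots B).symm
        _ ≤ Multiset.card B.roots := Multiset.count_le_card _ _
        _ ≤ B.natDegree := card_roots' B
    have hq2 : q.rootMultiplicity x ≤ p := by
      rw [← count_roots, hroots, Multiset.count_map]
      refine le_trans (le_of_eq ?_) (hm x)
      rw [Finset.card_def, Finset.filter_val]
      congr 1
      apply Multiset.filter_congr
      intro a _
      exact ⟨fun h => h.symm, fun h => h.symm⟩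
    have h7 := mult_eq q B hqm.ne_zero hB0 x h3
    rw [ZMod.natCast_eq_natCast_iff] at h7
    by_contra hlt
    push Not at hlt
    have h8 : p ∣ q.rootMultiplicity x - B.rootMultiplicity x :=
      (Nat.modEq_iff_dvd' hlt.le).mp h7.symm
    have h9 := Nat.le_of_dvd (by omega) h8
    omega
  have := Multiset.card_le_card hle
  have h10 : Multiset.card q.roots = p + r := by
    rw [hroots, Multiset.card_map]
    simpa using hcard
  have h11 := card_roots' B
  omega

end Pool.Agent.Helper51.AT
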